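import Pool.Agent.Helper88.SE.Goals
import Pool.Agent.Helper33.RR.GT

set_option autoImplicit false

/-!
# Packet GT of project SE (MP_69be96_nt), adapted from `Helper91.TU.GT`
-/

open Finset Filter Topology

open scoped Classical

namespace Pool.Agent.Helper39.SE

open Pool.Agent.Helper88.PP (pr Rg om Sf SS uu vv ee LA VV QQ cost nc dd)
open Pool.Agent.Helper88.RR (gg ab TB WB nz wb DB Db VM GB)
open Pool.Agent.Helper88.GM (NI XI In gB sp)
open Pool.Agent.Helper88.TU (Su)
open Pool.Agent.Helper88.SE
open Pool.Agent.Helper33.RR (om_nonneg VM_nonneg VM_ge_one VV_nonneg ab_nonneg card_labels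
  prod_labels gg_nonneg gg_succ)

theorem card_sp {P : Finset ℕ} (r : P → ℕ) : (sp r).card = nz r := by
  unfold sp nz
  exact Finset.card_image_of_injective _ Subtype.val_injective

theorem sp_subset {P : Finset ℕ} (r : P → ℕ) : sp r ⊆ P := by
  intro i hi
  unfold sp at hi
  rw [mem_image] at hi
  obtain ⟨j, -, rfl⟩ := hi
  exact j.2

theorem mem_TB {m q M z D : ℕ} {P : Finset ℕ} {r : P → ℕ} (hr : r ∈ TD m q M z D P) :
    r ∈ TB m q M z P := by
  simp only [TD, TB, mem_filter, Fintype.mem_piFinset, mem_insert, LD] at hr ⊢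
  refine ⟨fun i => ?_, hr.2⟩
  rcases hr.1 i with h | h
  · exact Or.inl h
  · exact Or.inr h.1

theorem Dd_nonneg {m q M z D : ℕ} (t : ℕ) (h : ∀ r ∈ LD z m (q * m) D, 0 ≤ ad m q z D r) :
    0 ≤ Dd m q M z D t :=
  Finset.sum_nonneg fun s hs => h s (Finset.mem_of_mem_filter s hs)

theorem Dd_le {m q M z D : ℕ} (t : ℕ) (h : ∀ r ∈ LD z m (q * m) D, 0 ≤ ad m q z D r)
    (h1 : ∑ r ∈ LD z m (q * m) D, ad m q z D r = 1) : Dd m q M z D t ≤ 1 := by
  rw [← h1]
  exact Finset.sum_le_sum_of_subset_of_nonneg (Finset.filter_subset _ _) fun s hs _ => h s hs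

theorem Dd_zero (m q M z D t : ℕ) (_hz : 2 ≤ z) (ht : t + q * m ≤ M) : Dd m q M z D t = 0 := by
  unfold Dd
  rw [Finset.sum_eq_zero]
  intro s hs
  exfalso
  simp only [mem_filter, LD, LA, SS, mem_Ico] at hs
  obtain ⟨⟨⟨⟨⟨h1, h2⟩, -⟩, -⟩, -⟩, h3⟩ := hs
  have h4 : Nat.log z s < q * m := Nat.log_lt_of_lt_pow (by omega) h2
  unfold ee at h3
  omega

theorem VN_nonneg (M z D : ℕ) : 0 ≤ VN M z D := Finset.sum_nonneg fun _ _ => by positivity

theorem gt (hTH : StmtTH) (hGH : StmtGH) (hVB : StmtVB) : StmtGT := by
  obtain ⟨c, hc, E0, hE0⟩ := hTH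
  obtain ⟨E1, hE1'⟩ := hGH
  obtain ⟨E2, hE2'⟩ := hVB
  refine ⟨c, hc, max (max E0 16) (max E1 E2), ?_⟩
  intro E z x y hE hsr u v Q b hIn m q hm hqm hVV hK P D hPn hDv h
  have hE1 : E0 ≤ E := (le_max_left _ _).trans ((le_max_left _ _).trans hE)
  have hE2 : 16 ≤ E := (le_max_right _ _).trans ((le_max_left _ _).trans hE)
  have hE3 : E1 ≤ E := (le_max_left _ _).trans ((le_max_right _ _).trans hE)
  have hE4 : E2 ≤ E := (le_max_right _ _).trans ((le_max_right _ _).trans hE)
  obtain ⟨-, -, hVMN, hVN, had, hsum⟩ := hE2' E z x y hE4 hsr m q hm hqm hVV P D hDv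
  have had0 : ∀ r ∈ LD z m (q * m) D, 0 ≤ ad m q z D r := fun r hr => (had r hr).1
  set M : ℕ := E / 16 with hM
  have hM1 : 1 ≤ M := by omega
  have hz2 : 2 ≤ z := by
    have h1 := hsr.1.1
    have h2 : (2 : ℝ) ≤ Real.exp E := by
      have h3 := Real.add_one_le_exp (E : ℝ)
      have h4 : (16 : ℝ) ≤ E := by exact_mod_cast hE2
      linarith
    exact_mod_cast h2.trans h1
  have hVM := VM_ge_one hM1 hz2
  set Th : Finset (P → ℕ) := (TD m q M z D P).filter (fun r => r h = 0) with hTh
  set S : Finset ℕ := SD z (z ^ M) D with hS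
  set co : ℕ → ℝ := fun r => if r = 0 then 1 else - ad m q z D r with hco
  set cc : (P → ℕ) → ℝ := fun r' => Dd m q M z D (cost z (Function.update r' h 0)) *
    (1 / (VN M z D * (Nat.totient (r' h) : ℝ))) * ∏ i ∈ univ.erase h, co (r' i) with hcc
  set T : Finset (P → ℕ) := (Th ×ˢ S).image (fun p => Function.update p.1 h p.2) with hT
  have hinj : Set.InjOn (fun p : (P → ℕ) × ℕ => Function.update p.1 h p.2)
      ((Th ×ˢ S : Finset ((P → ℕ) × ℕ)) : Set ((P → ℕ) × ℕ)) := by
    rintro ⟨r, s⟩ hr ⟨r', s'⟩ hr' heq
    rw [mem_coe, mem_product] at hr hr'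
    simp only [hTh, mem_filter] at hr hr'
    simp only at heq
    have h1 : s = s' := by
      have := congrFun heq h
      simpa using this
    have h2 : r = r' := by
      funext i
      by_cases hi : i = h
      · rw [hi, hr.1.2, hr'.1.2]
      · have := congrFun heq i
        simpa [Function.update_of_ne hi] using this
    rw [h1, h2]
  have hupd0 : ∀ r ∈ Th, ∀ s, Function.update (Function.update r h s) h 0 = r := by
    intro r hr s
    rw [Function.update_idem]
    simp only [hTh, mem_filter] at hr
    rw [← hr.2, Function.update_eq_self]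
  have hcardP : P.card ≤ y := hPn.2.1
  have hnz_le : ∀ r : P → ℕ, nz r ≤ y := by
    intro r
    unfold nz
    refine (Finset.card_le_univ _).trans ?_
    rw [Fintype.card_coe]
    exact hcardP
  have hnz_succ : ∀ r ∈ Th, ∀ s ∈ S, nz (Function.update r h s) = nz r + 1 := by
    intro r hr s hs
    have hr0 : r h = 0 := by
      simp only [hTh, mem_filter] at hr
      exact hr.2
    have hs0 : s ≠ 0 := by
      simp only [hS, SD, SS, mem_filter, mem_Ico] at hs
      omega
    unfold nz
    have h3 : (univ.filter (fun i => Function.update r h s i ≠ 0))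
        = insert h (univ.filter (fun i => r i ≠ 0)) := by
      ext i
      rw [mem_insert]
      by_cases hih : i = h
      · subst hih
        simp [hs0]
      · simp [Function.update_of_ne hih, hih]
    rw [h3, Finset.card_insert_of_notMem]
    simp [hr0]
  have hnzT : ∀ r ∈ T, nz r ≤ M / m + 1 := by
    intro r' hr'
    rw [hT, mem_image] at hr'
    obtain ⟨⟨r, s⟩, hrs, rfl⟩ := hr'
    rw [mem_product] at hrs
    have h1 := hrs.1
    simp only
    rw [hnz_succ r hrs.1 s hrs.2]
    simp only [hTh, mem_filter] at h1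
    have h2 := card_labels hm hz2 (mem_TB h1.1)
    omega
  have hTS' := hE0 E z x y hE1 hsr u v Q b hIn m q (M / m + 1) hm hqm hVV hK
    P D hPn hDv T cc {h} ∅ (by simp) (by simp) (by simp) ?_ ?_ ?_ ?_ ?_ ?_
  · -- conclusion
    have hGG : ∀ n, GD m q M z y D P h n = ∑ r ∈ T, cc r * ∏ i, vv y z (r i) (n + (i : ℕ)) := by
      intro n
      rw [hT, Finset.sum_image hinj, Finset.sum_product]
      unfold GD
      refine Finset.sum_congr rfl fun r hr => Finset.sum_congr rfl fun s _ => ?_
      have hr0 : r h = 0 := by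
        rw [hTh, mem_filter] at hr
        exact hr.2
      simp only [hcc]
      rw [hupd0 r hr s, Function.update_self]
      rw [← Finset.mul_prod_erase univ (fun i : P => vv y z (Function.update r h s i) (n + (i : ℕ)))
        (mem_univ h), Function.update_self]
      rw [← Finset.mul_prod_erase univ (fun i : P => ((if r i = 0 then 1 else - ad m q z D (r i)) *
        vv y z (r i) (n + (i : ℕ)))) (mem_univ h)]
      have e1 : ∏ i ∈ univ.erase h, co (Function.update r h s i)
          = ∏ i ∈ univ.erase h, co (r i) := by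
        refine Finset.prod_congr rfl fun i hi => ?_
        rw [Function.update_of_ne (Finset.ne_of_mem_erase hi)]
      have e2 : ∏ i ∈ univ.erase h, vv y z (Function.update r h s i) (n + (i : ℕ))
          = ∏ i ∈ univ.erase h, vv y z (r i) (n + (i : ℕ)) := by
        refine Finset.prod_congr rfl fun i hi => ?_
        rw [Function.update_of_ne (Finset.ne_of_mem_erase hi)]
      rw [e1, e2, hr0]
      have e3 : vv y z 0 (n + (h : ℕ)) = 1 := by simp [vv]
      rw [e3, Finset.prod_mul_distrib]
      simp only [if_true, one_mul, hco]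
      ring
    have hmain : ∑ r ∈ T, cc r ^ 2 *
        (gg y z (nz r) * ∏ i, (if r i = 0 then 1 else (Nat.totient (r i) : ℝ))) ≤ om y z *
        ∑ r ∈ (TD m q M z D P).filter (fun r => M < cost z r + q * m), wd m q y z D r := by
      rw [hT, Finset.sum_image hinj, Finset.sum_product]
      have hterm : ∀ r ∈ Th, ∀ s ∈ S, cc (Function.update r h s) ^ 2 *
          (gg y z (nz (Function.update r h s)) * ∏ i, (if Function.update r h s i = 0 then 1
            else (Nat.totient (Function.update r h s i) : ℝ))) =
          (Dd m q M z D (cost z r) ^ 2 * (gg y z (nz r + 1) * ∏ i : P,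
            (if r i = 0 then 1 else ad m q z D (r i) ^ 2 * (Nat.totient (r i) : ℝ)))) *
          ((1 / VN M z D) ^ 2 * (1 / (Nat.totient s : ℝ))) := by
        intro r hr s hs
        have hr0 : r h = 0 := by
          simp only [hTh, mem_filter] at hr
          exact hr.2
        have hs0 : s ≠ 0 := by
          simp only [hS, SD, SS, mem_filter, mem_Ico] at hs
          omega
        have hs1 : (Nat.totient s : ℝ) ≠ 0 := by
          have : 0 < Nat.totient s := Nat.totient_pos.mpr (Nat.pos_of_ne_zero hs0)
          exact_mod_cast this.ne'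
        rw [hnz_succ r hr s hs]
        simp only [hcc]
        rw [hupd0 r hr s, Function.update_self]
        rw [← Finset.mul_prod_erase univ (fun i : P => (if Function.update r h s i = 0 then (1 : ℝ)
            else (Nat.totient (Function.update r h s i) : ℝ)))
          (mem_univ h), Function.update_self, if_neg hs0]
        rw [← Finset.mul_prod_erase univ (fun i : P => (if r i = 0 then (1 : ℝ) else
          ad m q z D (r i) ^ 2 * (Nat.totient (r i) : ℝ))) (mem_univ h)]
        have e1 : ∏ i ∈ univ.erase h, co (Function.update r h s i)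
            = ∏ i ∈ univ.erase h, co (r i) := by
          refine Finset.prod_congr rfl fun i hi => ?_
          rw [Function.update_of_ne (Finset.ne_of_mem_erase hi)]
        have e2 : ∏ i ∈ univ.erase h, (if Function.update r h s i = 0 then (1 : ℝ)
            else (Nat.totient (Function.update r h s i) : ℝ))
            = ∏ i ∈ univ.erase h, (if r i = 0 then (1 : ℝ)
            else (Nat.totient (r i) : ℝ)) := by
          refine Finset.prod_congr rfl fun i hi => ?_
          rw [Function.update_of_ne (Finset.ne_of_mem_erase hi)]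
        have e3 : (∏ i ∈ univ.erase h, co (r i)) ^ 2 * ∏ i ∈ univ.erase h,
            (if r i = 0 then (1 : ℝ) else (Nat.totient (r i) : ℝ))
            = ∏ i ∈ univ.erase h, (if r i = 0 then (1 : ℝ) else
              ad m q z D (r i) ^ 2 * (Nat.totient (r i) : ℝ)) := by
          rw [← Finset.prod_pow, ← Finset.prod_mul_distrib]
          refine Finset.prod_congr rfl fun i _ => ?_
          simp only [hco]
          split_ifs <;> ring
        rw [e1, e2, ← e3, hr0]
        simp only [if_true, one_mul]
        have hVM0 : VN M z D ≠ 0 := by linarith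
        field_simp
      rw [Finset.sum_congr rfl fun r hr => Finset.sum_congr rfl fun s hs => hterm r hr s hs]
      rw [Finset.sum_congr rfl fun r _ => (Finset.mul_sum _ _ _).symm, ← Finset.sum_mul,
        ← Finset.mul_sum]
      have e6 : (1 / VN M z D) ^ 2 * ∑ s ∈ S, 1 / (Nat.totient s : ℝ) ≤ 1 := by
        have e7 : (1 / VN M z D) ^ 2 * ∑ s ∈ S, 1 / (Nat.totient s : ℝ) = 1 / VN M z D := by
          show (1 / VN M z D) ^ 2 * VN M z D = _
          have hVM0 : VN M z D ≠ 0 := by linarith
          field_simp
        rw [e7, div_le_one (by linarith)]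
        exact hVN
      have hprod : ∀ r : P → ℕ, 0 ≤ ∏ i : P,
            (if r i = 0 then 1 else ad m q z D (r i) ^ 2 * (Nat.totient (r i) : ℝ)) := by
        intro r
        refine Finset.prod_nonneg fun i _ => ?_
        split_ifs <;> positivity
      have hwb : ∀ r : P → ℕ, 0 ≤ wd m q y z D r := by
        intro r
        unfold wd
        exact mul_nonneg (gg_nonneg (hnz_le r)) (hprod r)
      have hlt : ∀ r ∈ Th, nz r + 1 ≤ y := by
        intro r hr
        have hs1 : (1 : ℕ) ∈ S := by
          simp only [hS, SD, SS, mem_filter, mem_Ico]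
          refine ⟨⟨⟨le_rfl, Nat.one_lt_pow (by omega) (by omega)⟩, squarefree_one, ?_⟩,
            Nat.coprime_one_left _⟩
          intro p hp hp1
          exact absurd (Nat.dvd_one.mp hp1) hp.ne_one
        rw [← hnz_succ r hr 1 hs1]
        exact hnz_le _
      have e7 : ∑ r ∈ Th, Dd m q M z D (cost z r) ^ 2 * (gg y z (nz r + 1) * ∏ i : P,
            (if r i = 0 then 1 else ad m q z D (r i) ^ 2 * (Nat.totient (r i) : ℝ))) ≤
          om y z * ∑ r ∈ (TD m q M z D P).filter (fun r => M < cost z r + q * m),
            wd m q y z D r := by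
        rw [Finset.mul_sum]
        conv_rhs => rw [Finset.sum_filter]
        have hstep : ∀ r ∈ Th, Dd m q M z D (cost z r) ^ 2 * (gg y z (nz r + 1) * ∏ i : P,
            (if r i = 0 then 1 else ad m q z D (r i) ^ 2 * (Nat.totient (r i) : ℝ))) ≤
            (if M < cost z r + q * m then om y z * wd m q y z D r else 0) := by
          intro r hr
          split_ifs with hcost
          · have h1 := Dd_le (M := M) (cost z r) had0 hsum
            have h2 := Dd_nonneg (M := M) (cost z r) had0
            have h3 : Dd m q M z D (cost z r) ^ 2 ≤ 1 := pow_le_one₀ h2 h1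
            have h4 : 0 ≤ gg y z (nz r + 1) * ∏ i : P,
              (if r i = 0 then 1 else ad m q z D (r i) ^ 2 * (Nat.totient (r i) : ℝ)) :=
              mul_nonneg (gg_nonneg (hlt r hr)) (hprod r)
            calc _ ≤ 1 * _ := mul_le_mul_of_nonneg_right h3 h4
              _ = _ := one_mul _
              _ ≤ (om y z * gg y z (nz r)) * ∏ i : P,
                  (if r i = 0 then 1 else ad m q z D (r i) ^ 2 * (Nat.totient (r i) : ℝ)) :=
                mul_le_mul_of_nonneg_right (gg_succ (hlt r hr)) (hprod r)
              _ = _ := by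
                unfold wd
                rw [mul_assoc]
          · rw [Dd_zero m q M z D (cost z r) hz2 (by omega)]
            simp
        refine (Finset.sum_le_sum hstep).trans ?_
        refine Finset.sum_le_sum_of_subset_of_nonneg (Finset.filter_subset _ _) fun r _ _ => ?_
        split_ifs
        · exact mul_nonneg (om_nonneg y z) (hwb r)
        · exact le_rfl
      have h0 : 0 ≤ ∑ r ∈ Th, Dd m q M z D (cost z r) ^ 2 * (gg y z (nz r + 1) * ∏ i : P,
            (if r i = 0 then 1 else ad m q z D (r i) ^ 2 * (Nat.totient (r i) : ℝ))) :=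
        Finset.sum_nonneg fun r hr =>
          mul_nonneg (sq_nonneg _) (mul_nonneg (gg_nonneg (hlt r hr)) (hprod r))
      calc _ ≤ (∑ r ∈ Th, Dd m q M z D (cost z r) ^ 2 * (gg y z (nz r + 1) * ∏ i : P,
            (if r i = 0 then 1 else ad m q z D (r i) ^ 2 * (Nat.totient (r i) : ℝ)))) * 1 :=
            mul_le_mul_of_nonneg_left e6 h0
        _ = _ := mul_one _
        _ ≤ _ := e7
    have hmain2 : ∑ r ∈ T, cc r ^ 2 *
        (gB y z (sp r) * ∏ i, (if r i = 0 then 1 else (Nat.totient (r i) : ℝ))) ≤ 2 *
        ∑ r ∈ T, cc r ^ 2 *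
        (gg y z (nz r) * ∏ i, (if r i = 0 then 1 else (Nat.totient (r i) : ℝ))) := by
      rw [Finset.mul_sum]
      refine Finset.sum_le_sum fun r hr => ?_
      have h1 : (sp r).card ^ 2 ≤ E := by
        rw [card_sp]
        have h2 := hnzT r hr
        calc nz r ^ 2 ≤ (M / m + 1) ^ 2 := Nat.pow_le_pow_left h2 2
          _ ≤ (M / m + 1) ^ 3 := Nat.pow_le_pow_right (Nat.succ_pos _) (by norm_num)
          _ ≤ E := hK
      have h2 := (hE1' E z x y hE3 hsr (sp r) ((sp_subset r).trans hPn.1) h1).2.2.1
      rw [card_sp] at h2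
      have h3 : 0 ≤ ∏ i, (if r i = 0 then (1 : ℝ) else (Nat.totient (r i) : ℝ)) :=
        Finset.prod_nonneg fun i _ => by split_ifs <;> positivity
      calc _ ≤ cc r ^ 2 * ((2 * gg y z (nz r)) *
            ∏ i, (if r i = 0 then 1 else (Nat.totient (r i) : ℝ))) :=
            mul_le_mul_of_nonneg_left (mul_le_mul_of_nonneg_right h2 h3) (sq_nonneg _)
        _ = _ := by ring
    have hXX : 0 ≤ XI u v Q := by
      unfold XI
      positivity
    have h1 := (abs_le.mp hTS').2
    rw [Finset.card_singleton, Finset.card_empty, add_zero, pow_one] at h1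
    rw [Finset.sum_congr rfl fun n _ => by rw [hGG n]]
    have h2 := mul_le_mul_of_nonneg_left (hmain2.trans
      (mul_le_mul_of_nonneg_left hmain (by norm_num : (0 : ℝ) ≤ 2))) hXX
    have h3 : 0 ≤ Real.exp (-(c * E)) * om y z * XI u v Q :=
      mul_nonneg (mul_nonneg (Real.exp_pos _).le (om_nonneg y z)) hXX
    calc _ ≤ XI u v Q * ∑ r ∈ T, cc r ^ 2 *
          (gB y z (sp r) * ∏ i, (if r i = 0 then 1 else (Nat.totient (r i) : ℝ)))
          + Real.exp (-(c * E)) * om y z * XI u v Q := by
          linarith
      _ ≤ XI u v Q * (2 * (om y z *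
          ∑ r ∈ (TD m q M z D P).filter (fun r => M < cost z r + q * m), wd m q y z D r))
          + 2 * (Real.exp (-(c * E)) * om y z * XI u v Q) := by
          linarith
      _ = _ := by ring
  · intro r' hr' i hi _
    rw [hT, mem_image] at hr'
    obtain ⟨⟨r, s⟩, hrs, rfl⟩ := hr'
    rw [mem_product] at hrs
    have hi' : i ≠ h := by simpa using hi
    simp only
    rw [Function.update_of_ne hi']
    have h1 := hrs.1
    simp only [hTh, TD, mem_filter, Fintype.mem_piFinset, mem_insert] at h1
    exact h1.1.1 i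
  · intro r' hr' i hi
    rw [hT, mem_image] at hr'
    obtain ⟨⟨r, s⟩, hrs, rfl⟩ := hr'
    rw [mem_product] at hrs
    have hi' : i = h := by simpa using hi
    subst hi'
    simp only
    rw [Function.update_self]
    exact hrs.2
  · intro r' _ i hi
    simp at hi
  · exact hnzT
  · intro r' hr'
    rw [hT, mem_image] at hr'
    obtain ⟨⟨r, s⟩, hrs, rfl⟩ := hr'
    rw [mem_product] at hrs
    have h1 := hrs.1
    simp only [hTh, mem_filter] at h1
    have h2 := prod_labels hz2 (mem_TB h1.1)
    have hs := hrs.2
    simp only [hS, SD, SS, mem_filter, mem_Ico] at hs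
    simp only
    rw [← Finset.mul_prod_erase univ (fun i : P => max 1 (Function.update r h s i)) (mem_univ h),
      Function.update_self]
    rw [← Finset.mul_prod_erase univ (fun i : P => max 1 (r i)) (mem_univ h)] at h2
    have e1 : ∏ i ∈ univ.erase h, max 1 (Function.update r h s i)
        = ∏ i ∈ univ.erase h, max 1 (r i) := by
      refine Finset.prod_congr rfl fun i hi => ?_
      rw [Function.update_of_ne (Finset.ne_of_mem_erase hi)]
    rw [e1, h1.2] at *
    simp only [Nat.max_eq_left (Nat.zero_le 1), one_mul] at h2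
    change _ ≤ z ^ (2 * M)
    rw [two_mul, pow_add]
    exact Nat.mul_le_mul (by omega) h2
  · intro r' hr'
    rw [hT, mem_image] at hr'
    obtain ⟨⟨r, s⟩, hrs, rfl⟩ := hr'
    rw [mem_product] at hrs
    have h1 := hrs.1
    simp only [hcc]
    rw [hupd0 r hrs.1 s]
    simp only [Finset.notMem_empty, if_false]
    rw [← Finset.mul_prod_erase univ (fun i : P => if i ∈ ({h} : Finset P) then
      2 / (VM M z * (Nat.totient (Function.update r h s i) : ℝ)) else
      if Function.update r h s i = 0 then 1 else 2 * ab m q z (Function.update r h s i))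
      (mem_univ h)]
    rw [Function.update_self, if_pos (by simp), abs_mul, abs_mul,
      abs_of_nonneg (Dd_nonneg _ had0), Finset.abs_prod]
    have hs0 : s ≠ 0 := by
      have hs := hrs.2
      simp only [hS, SD, SS, mem_filter, mem_Ico] at hs
      omega
    have hs1 : (0 : ℝ) < (Nat.totient s : ℝ) := by
      have : 0 < Nat.totient s := Nat.totient_pos.mpr (Nat.pos_of_ne_zero hs0)
      exact_mod_cast this
    have h2 : 0 ≤ 1 / (VN M z D * (Nat.totient s : ℝ)) := by
      have := VN_nonneg M z D
      positivity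
    have h3 : 1 / (VN M z D * (Nat.totient s : ℝ)) ≤ 2 / (VM M z * (Nat.totient s : ℝ)) := by
      rw [div_le_div_iff₀ (mul_pos (by linarith) hs1) (mul_pos (by linarith) hs1)]
      nlinarith
    rw [abs_of_nonneg h2]
    refine mul_le_mul ?_ ?_ (Finset.prod_nonneg fun _ _ => abs_nonneg _) (h2.trans h3)
    · calc _ ≤ 1 * (1 / (VN M z D * (Nat.totient s : ℝ))) :=
            mul_le_mul_of_nonneg_right (Dd_le _ had0 hsum) h2
        _ = 1 / (VN M z D * (Nat.totient s : ℝ)) := one_mul _
        _ ≤ _ := h3
    · refine Finset.prod_le_prod (fun _ _ => abs_nonneg _) fun i hi => ?_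
      have hi' : i ≠ h := Finset.ne_of_mem_erase hi
      rw [if_neg (by simpa using hi'), Function.update_of_ne hi']
      simp only [hTh, TD, mem_filter, Fintype.mem_piFinset, mem_insert] at h1
      rcases h1.1.1 i with h4 | h4
      · simp [hco, h4]
      · simp only [hco]
        split_ifs with h5
        · simp
        · rw [abs_neg, abs_of_nonneg (had0 _ h4)]
          exact (had _ h4).2

end Pool.Agent.Helper39.SE
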